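import Mathlib

/-!
# From dyadic windows to `[-T, T]`, all `n ≥ m` at once
-/

set_option autoImplicit false

namespace Pool.Agent.T6.H6.LG

open MeasureTheory Set

/-- geometric series of measures -/
lemma geo_sum {c M : ℝ} (hc : 0 < c) (hM : 0 ≤ M) (m : ℕ) :
    ∑' k : ℕ, ENNReal.ofReal (M * Real.exp (-(c * ((m + k : ℕ) : ℝ)))) =
      ENNReal.ofReal (M / (1 - Real.exp (-c)) * Real.exp (-(c * m))) := by
  have hq1 : Real.exp (-c) < 1 := Real.exp_lt_one_iff.2 (by linarith)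
  have hq0 : 0 ≤ Real.exp (-c) := (Real.exp_pos _).le
  have e : ∀ k : ℕ, M * Real.exp (-(c * ((m + k : ℕ) : ℝ))) =
      (M * Real.exp (-(c * m))) * Real.exp (-c) ^ k := by
    intro k
    rw [← Real.exp_nat_mul, mul_assoc, ← Real.exp_add]
    congr 2
    push_cast
    ring
  simp only [e]
  have hs : Summable fun k : ℕ => (M * Real.exp (-(c * m))) * Real.exp (-c) ^ k :=
    (summable_geometric_of_lt_one hq0 hq1).mul_left _
  rw [← ENNReal.ofReal_tsum_of_nonneg (fun k => by positivity) hs, tsum_mul_left,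
    tsum_geometric_of_lt_one hq0 hq1]
  congr 1
  ring

theorem comb {Bad : ℕ → ℝ → Prop} (hsymm : ∀ n t, Bad n t → Bad n (-t)) {A1 : ℝ} (hA1 : 1 ≤ A1)
    (hbig : ∀ (n : ℕ) (t : ℝ), A1 * Real.log (2 + |t|) ≤ n → ¬ Bad n t)
    (hdy : ∀ A : ℝ, 1 ≤ A → ∃ c C T0 : ℝ, ∃ n0 : ℕ, 0 < c ∧ 0 < C ∧ 2 ≤ T0 ∧ ∀ (T : ℝ) (n : ℕ), T0 ≤ T → n0 ≤ n →
      (n : ℝ) ≤ A * Real.log T → volume {t | T ≤ t ∧ t ≤ 2 * T ∧ Bad n t} ≤
        ENNReal.ofReal (C * T * Real.exp (-(c * n)))) :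
    ∃ c C : ℝ, 0 < c ∧ 0 < C ∧ ∀ (m : ℕ) (T : ℝ), 0 < T →
      volume {t | |t| ≤ T ∧ ∃ n, m ≤ n ∧ Bad n t} ≤ ENNReal.ofReal (C * T * Real.exp (-(c * m))) := by
  obtain ⟨c, C, T0, n0, hc, hC, hT0, H⟩ := hdy (3 * A1) (by linarith)
  have hq1 : Real.exp (-c) < 1 := Real.exp_lt_one_iff.2 (by linarith)
  obtain ⟨C', hC'⟩ : ∃ C' : ℝ, C' = C / (1 - Real.exp (-c)) := ⟨_, rfl⟩
  have hC'0 : 0 < C' := by rw [hC']; exact div_pos hC (by linarith)
  obtain ⟨n1, hn1⟩ : ∃ n1 : ℕ, n1 = max n0 ⌈A1 * Real.log (2 + T0)⌉₊ := ⟨_, rfl⟩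
  have hn10 : n0 ≤ n1 := by rw [hn1]; exact le_max_left _ _
  have hn11 : A1 * Real.log (2 + T0) ≤ n1 := by
    rw [hn1]
    exact (Nat.le_ceil _).trans (by exact_mod_cast le_max_right _ _)
  -- dyadic windows
  have h1 : ∀ (m : ℕ) (S : ℝ), n1 ≤ m → T0 ≤ S → volume {t | S ≤ t ∧ t ≤ 2 * S ∧ ∃ n, m ≤ n ∧ Bad n t} ≤
      ENNReal.ofReal (C' * S * Real.exp (-(c * m))) := by
    intro m S hm hS
    have hS2 : 2 ≤ S := hT0.trans hS
    have hS0 : 0 < S := by linarith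
    have hsub : {t | S ≤ t ∧ t ≤ 2 * S ∧ ∃ n, m ≤ n ∧ Bad n t} ⊆
        ⋃ k : ℕ, {t | S ≤ t ∧ t ≤ 2 * S ∧ Bad (m + k) t} := by
      rintro t ⟨h1, h2, n, h3, h4⟩
      rw [mem_iUnion]
      refine ⟨n - m, h1, h2, ?_⟩
      rwa [Nat.add_sub_cancel' h3]
    refine (measure_mono hsub).trans ((measure_iUnion_le _).trans ?_)
    have h2 : ∀ k : ℕ, volume {t | S ≤ t ∧ t ≤ 2 * S ∧ Bad (m + k) t} ≤
        ENNReal.ofReal (C * S * Real.exp (-(c * ((m + k : ℕ) : ℝ)))) := by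
      intro k
      rcases le_or_gt ((m + k : ℕ) : ℝ) (3 * A1 * Real.log S) with h | h
      · exact H S (m + k) hS (by omega) h
      · have he : {t | S ≤ t ∧ t ≤ 2 * S ∧ Bad (m + k) t} = ∅ := by
          apply Set.eq_empty_iff_forall_notMem.2
          rintro t ⟨h3, h4, h5⟩
          refine hbig (m + k) t ?_ h5
          refine le_trans ?_ h.le
          have h6 : Real.log (2 + |t|) ≤ 3 * Real.log S := by
            have h7 : (3 : ℝ) * Real.log S = Real.log (S ^ 3) := by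
              rw [Real.log_pow]; norm_num
            rw [h7]
            apply Real.log_le_log (by positivity)
            rw [abs_of_nonneg (by linarith)]
            have h8 : 4 ≤ S ^ 2 := by nlinarith
            have h9 : S ^ 3 = S * S ^ 2 := by ring
            rw [h9]
            nlinarith
          calc A1 * Real.log (2 + |t|) ≤ A1 * (3 * Real.log S) := by gcongr
            _ = _ := by ring
        rw [he, measure_empty]
        exact zero_le
    refine (ENNReal.tsum_le_tsum h2).trans ?_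
    rw [geo_sum hc (by positivity)]
    apply le_of_eq
    congr 1
    rw [hC']
    ring
  -- intervals `[0, T0 2^k]`
  have h2 : ∀ (m : ℕ), n1 ≤ m → ∀ k : ℕ, volume {t | 0 ≤ t ∧ t ≤ T0 * 2 ^ k ∧ ∃ n, m ≤ n ∧ Bad n t} ≤
      ENNReal.ofReal (C' * (T0 * 2 ^ k) * Real.exp (-(c * m))) := by
    intro m hm k
    induction k with
    | zero =>
      have he : {t | 0 ≤ t ∧ t ≤ T0 * 2 ^ 0 ∧ ∃ n, m ≤ n ∧ Bad n t} = ∅ := by
        apply Set.eq_empty_iff_forall_notMem.2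
        rintro t ⟨h3, h4, n, h5, h6⟩
        rw [pow_zero, mul_one] at h4
        refine hbig n t ?_ h6
        have h7 : (n1 : ℝ) ≤ n := by exact_mod_cast hm.trans h5
        refine le_trans ?_ h7
        refine le_trans ?_ hn11
        rw [abs_of_nonneg h3]
        gcongr
      rw [he, measure_empty]
      exact zero_le
    | succ k ih =>
      have hpk : (1 : ℝ) ≤ 2 ^ k := one_le_pow₀ (by norm_num)
      have hsub : {t | 0 ≤ t ∧ t ≤ T0 * 2 ^ (k + 1) ∧ ∃ n, m ≤ n ∧ Bad n t} ⊆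
          {t | 0 ≤ t ∧ t ≤ T0 * 2 ^ k ∧ ∃ n, m ≤ n ∧ Bad n t} ∪
          {t | T0 * 2 ^ k ≤ t ∧ t ≤ 2 * (T0 * 2 ^ k) ∧ ∃ n, m ≤ n ∧ Bad n t} := by
        rintro t ⟨h3, h4, h5⟩
        rcases le_total t (T0 * 2 ^ k) with h6 | h6
        · exact Or.inl ⟨h3, h6, h5⟩
        · refine Or.inr ⟨h6, ?_, h5⟩
          calc t ≤ _ := h4
            _ = _ := by ring
      refine (measure_mono hsub).trans ((measure_union_le _ _).trans ?_)
      refine (add_le_add ih (h1 m (T0 * 2 ^ k) hm (by nlinarith))).trans ?_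
      rw [← ENNReal.ofReal_add (by positivity) (by positivity)]
      apply le_of_eq
      congr 1
      ring
  -- `[0, T]`
  have h3 : ∀ (m : ℕ) (T : ℝ), n1 ≤ m → 0 < T → volume {t | 0 ≤ t ∧ t ≤ T ∧ ∃ n, m ≤ n ∧ Bad n t} ≤
      ENNReal.ofReal (2 * C' * T * Real.exp (-(c * m))) := by
    intro m T hm hT
    rcases le_or_gt T T0 with h | h
    · have he : {t | 0 ≤ t ∧ t ≤ T ∧ ∃ n, m ≤ n ∧ Bad n t} = ∅ := by
        apply Set.eq_empty_iff_forall_notMem.2
        rintro t ⟨h3, h4, n, h5, h6⟩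
        refine hbig n t ?_ h6
        have h7 : (n1 : ℝ) ≤ n := by exact_mod_cast hm.trans h5
        refine le_trans ?_ h7
        refine le_trans ?_ hn11
        rw [abs_of_nonneg h3]
        have : t ≤ T0 := h4.trans h
        gcongr
      rw [he, measure_empty]
      exact zero_le
    · obtain ⟨k, hk1, hk2⟩ := exists_nat_pow_near (x := T / T0) (y := 2)
        (by rw [one_le_div (by linarith)]; exact h.le) (by norm_num)
      have hT00 : 0 < T0 := by linarith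
      rw [le_div_iff₀ hT00] at hk1
      rw [div_lt_iff₀ hT00] at hk2
      refine (measure_mono ?_).trans ((h2 m hm (k + 1)).trans ?_)
      · rintro t ⟨h3, h4, h5⟩
        exact ⟨h3, h4.trans (by linarith), h5⟩
      · apply ENNReal.ofReal_le_ofReal
        have h5 : T0 * 2 ^ (k + 1) ≤ 2 * T := by
          rw [pow_succ]
          linarith
        calc C' * (T0 * 2 ^ (k + 1)) * Real.exp (-(c * m)) ≤ C' * (2 * T) * Real.exp (-(c * m)) := by gcongr
          _ = _ := by ring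
  refine ⟨c, 4 * C' + 2 * Real.exp (c * n1), hc, by positivity, ?_⟩
  intro m T hT
  rcases lt_or_ge m n1 with hm | hm
  · have hsub : {t | |t| ≤ T ∧ ∃ n, m ≤ n ∧ Bad n t} ⊆ Icc (-T) T := by
      rintro t ⟨h4, -⟩
      exact abs_le.1 h4
    refine (measure_mono hsub).trans ?_
    rw [Real.volume_Icc]
    apply ENNReal.ofReal_le_ofReal
    have h4 : 1 ≤ Real.exp (c * n1) * Real.exp (-(c * m)) := by
      rw [← Real.exp_add]
      apply Real.one_le_exp
      have : (m : ℝ) ≤ n1 := by exact_mod_cast hm.le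
      nlinarith
    have h5 : 0 ≤ 4 * C' * T * Real.exp (-(c * m)) := by positivity
    calc T - -T = 2 * T * 1 := by ring
      _ ≤ 2 * T * (Real.exp (c * n1) * Real.exp (-(c * m))) := by gcongr
      _ ≤ _ := by linarith
  · have hsub : {t | |t| ≤ T ∧ ∃ n, m ≤ n ∧ Bad n t} ⊆
        {t | 0 ≤ t ∧ t ≤ T ∧ ∃ n, m ≤ n ∧ Bad n t} ∪
        Neg.neg ⁻¹' {t | 0 ≤ t ∧ t ≤ T ∧ ∃ n, m ≤ n ∧ Bad n t} := by
      rintro t ⟨h4, n, h5, h6⟩
      have h7 := abs_le.1 h4
      rcases le_total 0 t with h8 | h8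
      · exact Or.inl ⟨h8, h7.2, n, h5, h6⟩
      · exact Or.inr ⟨by simpa using h8, by linarith [h7.1], n, h5, hsymm n t h6⟩
    refine (measure_mono hsub).trans ((measure_union_le _ _).trans ?_)
    rw [Measure.measure_preimage_neg]
    refine (add_le_add (h3 m T hm hT) (h3 m T hm hT)).trans ?_
    rw [← ENNReal.ofReal_add (by positivity) (by positivity)]
    apply ENNReal.ofReal_le_ofReal
    have h5 : 0 ≤ 2 * Real.exp (c * n1) * T * Real.exp (-(c * m)) := by positivity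
    nlinarith

end Pool.Agent.T6.H6.LG
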