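import Pool.Agent.TH803.LU.EC2

/-!
# Large `n` and the criterion, for one elliptic curve
-/

set_option autoImplicit false

open Complex Filter Topology Set UpperHalfPlane MatrixGroups CongruenceSubgroup
open scoped ComplexConjugate

namespace Pool.Agent.T6.H6.LG

open Pool.Agent.TH803.LU (LC ec_lag)
open Pool.Agent.W355.UN (Pk.uniq facE)
open Pool.Agent.W169.HF (IsForm coef)

theorem ec_large {N : ℕ} [NeZero N] {f : CuspForm (Gamma0 N : Subgroup (GL (Fin 2) ℝ)) 2} {w : ℝ}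
    (hf : IsForm N f w) {Λ : ℂ → ℂ} (hΛ : Differentiable ℂ Λ)
    (hσ : ∀ s : ℂ, 2 < s.re → Λ s = ((Real.sqrt N / (2 * Real.pi) : ℝ) : ℂ) ^ s * Complex.Gamma s *
      ∑' n : ℕ, coef f (n + 1) * ((n + 1 : ℕ) : ℂ) ^ (-s)) :
    (∃ A1 : ℝ, 1 ≤ A1 ∧ ∀ (n : ℕ) (t : ℝ), A1 * Real.log (2 + |t|) ≤ n →
      0 < LC (fun u => Λ (1 + t * Complex.I + u)) n) ∧
    ((∀ s : ℂ, Λ s = 0 → s.re = 1) ↔ ∀ (n : ℕ) (t : ℝ), 0 ≤ LC (fun u => Λ (1 + t * Complex.I + u)) n) := by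
  obtain ⟨C, hC, H⟩ := ec_lag (η := 1) one_pos
  obtain ⟨Λ', h1, ⟨σ, h2⟩, h3, h4⟩ := H N f w hf 1 (1 : DirichletCharacter ℂ 1)
    DirichletCharacter.isPrimitive_one_level_one (Nat.coprime_one_left N)
  have hfac : ∀ s : ℂ, facE f (1 : DirichletCharacter ℂ 1) s =
      ((Real.sqrt N / (2 * Real.pi) : ℝ) : ℂ) ^ s * Complex.Gamma s *
      ∑' n : ℕ, coef f (n + 1) * ((n + 1 : ℕ) : ℂ) ^ (-s) := by
    intro s
    unfold facE
    have e1 : (Real.sqrt N * ((1 : ℕ) : ℝ) / (2 * Real.pi) : ℝ) = Real.sqrt N / (2 * Real.pi) := by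
      rw [Nat.cast_one, mul_one]
    have e2 : ∀ n : ℕ, (1 : DirichletCharacter ℂ 1) ((n + 1 : ℕ) : ZMod 1) = 1 := by
      intro n
      have : ((n + 1 : ℕ) : ZMod 1) = 1 := Subsingleton.elim _ _
      rw [this, map_one]
    rw [e1]
    simp only [e2, mul_one]
  have hΛΛ : Λ = Λ' := by
    refine Pk.uniq h1 hΛ ⟨σ, h2⟩ ⟨3, fun s hs => ?_⟩
    rw [hσ s (by linarith), hfac]
  rw [← hΛΛ] at h3 h4
  obtain ⟨M, hM⟩ : ∃ M : ℝ, M = |(1 / 4 + 1) * Real.log ((N : ℝ)) + C| / Real.log 2 + 5 / 2 := ⟨_, rfl⟩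
  have hl2 : 0 < Real.log 2 := Real.log_pos (by norm_num)
  have hM1 : 1 ≤ M := by
    rw [hM]
    have : 0 ≤ |(1 / 4 + 1) * Real.log ((N : ℝ)) + C| / Real.log 2 := by positivity
    linarith
  have hNpos : (0 : ℝ) < N := by exact_mod_cast Nat.pos_of_ne_zero (NeZero.ne N)
  have hcmp : ∀ t : ℝ, (1 / 4 + 1) * Real.log ((N : ℝ) * ((1 : ℕ) : ℝ) ^ 2 * (1 + |t|) ^ 2) + C ≤
      M * Real.log (2 + |t|) := by
    intro t
    have ht := abs_nonneg t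
    have e1 : Real.log ((N : ℝ) * ((1 : ℕ) : ℝ) ^ 2 * (1 + |t|) ^ 2) = Real.log N + 2 * Real.log (1 + |t|) := by
      rw [Nat.cast_one, one_pow, mul_one, Real.log_mul hNpos.ne' (by positivity), Real.log_pow]
      norm_num
    rw [e1, hM]
    have h5 : Real.log 2 ≤ Real.log (2 + |t|) := Real.log_le_log (by norm_num) (by linarith)
    have h6 : Real.log (1 + |t|) ≤ Real.log (2 + |t|) := Real.log_le_log (by linarith) (by linarith)
    have h7 : |(1 / 4 + 1) * Real.log ((N : ℝ)) + C| ≤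
        |(1 / 4 + 1) * Real.log ((N : ℝ)) + C| / Real.log 2 * Real.log (2 + |t|) := by
      rw [div_mul_eq_mul_div, le_div_iff₀ hl2]
      gcongr
    have h8 := le_abs_self ((1 / 4 + 1) * Real.log ((N : ℝ)) + C)
    linarith
  refine ⟨⟨M, hM1, fun n t hn => h3 n t ((hcmp t).trans hn)⟩, ?_⟩
  rw [h4]
  constructor
  · intro h n t
    rcases lt_or_ge (n : ℝ) ((1 / 4 + 1) * Real.log ((N : ℝ) * ((1 : ℕ) : ℝ) ^ 2 * (1 + |t|) ^ 2) + C) with h5 | h5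
    · exact h n t h5
    · exact (h3 n t h5).le
  · intro h n t _
    exact h n t

end Pool.Agent.T6.H6.LG
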