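import Pool.Agent.T6.H6.LG.Nn
import Pool.Agent.Y671.LD.Spec
import Pool.Agent.R838.CR.Inst

/-!
# The measure of the set of heights with a non-positive Laguerre coefficient, in dyadic windows
-/

set_option autoImplicit false

namespace Pool.Agent.T6.H6.LG

open Complex Filter Topology Set Metric MeasureTheory
open scoped ComplexConjugate
open Pool.Agent.TH803.LU (LC EE EE_diff)
open Pool.Agent.H24R2.DZ (NN ra)
open Pool.Agent.H24R2.JP (Om)
open Pool.Agent.Y671.LD (DD FarOK)
open Pool.Agent.R838.CR (UNGI)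
open Pool.Agent.W186.SD (NG)

variable {F : ℂ → ℂ}

lemma nn_ng {a g η : ℝ} {F : ℂ → ℂ} (ha : 0 ≤ a) (h : NG (1 / 100) a g η F) : NN a η F := by
  refine ⟨h.diff, h.symm, fun z h1 h2 => h.far z (by linarith) h2, fun z h1 h2 => ?_⟩
  refine (h.near z (by linarith) h2).trans ?_
  apply mul_le_mul_of_nonneg_left _ (norm_nonneg _)
  apply Real.exp_le_exp.2
  linarith

/-- scaling of the Laguerre coefficients -/
theorem LC_sc {f : ℂ → ℂ} (hf : Differentiable ℂ f) (S : ℝ) (n : ℕ) :
    LC (fun u => f (S * u)) n = S ^ (2 * n) * LC f n := by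
  have e : EE (fun u => f (S * u)) = fun z => EE f ((S : ℂ) * z) := by
    funext z
    unfold EE
    simp only [map_mul, Complex.conj_ofReal]
  unfold LC
  rw [e, iteratedDeriv_comp_const_mul (EE_diff hf).contDiff (S : ℂ)]
  simp only [mul_zero]
  have e2 : (S : ℂ) ^ (2 * n) = ((S ^ (2 * n) : ℝ) : ℂ) := by push_cast; rfl
  rw [e2, Complex.re_ofReal_mul]
  ring

theorem LC_cm {f : ℂ → ℂ} (hf : Differentiable ℂ f) (c : ℂ) (n : ℕ) :
    LC (fun u => c * f u) n = ‖c‖ ^ 2 * LC f n := by
  have e : EE (fun u => c * f u) = fun z => ((‖c‖ ^ 2 : ℝ) : ℂ) * EE f z := by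
    funext z
    unfold EE
    rw [map_mul]
    have : c * conj c = ((‖c‖ ^ 2 : ℝ) : ℂ) := by rw [Complex.mul_conj, Complex.normSq_eq_norm_sq]
    rw [← this]
    ring
  have h1 : iteratedDeriv (2 * n) (fun z => ((‖c‖ ^ 2 : ℝ) : ℂ) * EE f z) 0 =
      ((‖c‖ ^ 2 : ℝ) : ℂ) * iteratedDeriv (2 * n) (EE f) 0 := by
    have h2 : ContDiff ℂ (2 * n : ℕ) (EE f) := (EE_diff hf).contDiff
    exact iteratedDeriv_const_mul _ h2.contDiffAt
  unfold LC
  rw [e, h1, Complex.re_ofReal_mul]
  ring

/-- positivity at good places, any scale -/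
theorem pos_of_nn (hF : Differentiable ℂ F) {r t : ℝ} {n : ℕ} (hr : 0 < r) (hn : 1000000000000 ≤ n)
    (h : NN n (1 / 20000000) (fun z => F (I * t + r * z))) : 0 < LC (fun z => F (I * t + z)) n := by
  have h1 := nn_pos (by norm_num) le_rfl hn h
  have hd : Differentiable ℂ (fun z => F (I * t + z)) := hF.comp (by fun_prop)
  have h2 := LC_sc hd r n
  rw [h2] at h1
  exact (mul_pos_iff_of_pos_left (by positivity)).1 h1

/-- few heights with a non-positive coefficient -/
theorem dyL {B K : ℝ} (hD : DD B K F) (hU : UNGI F) (A : ℝ) (hA : 1 ≤ A) :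
    ∃ c C T0 : ℝ, ∃ n0 : ℕ, 0 < c ∧ 0 < C ∧ 2 ≤ T0 ∧ ∀ (T : ℝ) (n : ℕ), T0 ≤ T → n0 ≤ n →
      (n : ℝ) ≤ A * Real.log T →
      volume {t : ℝ | T ≤ t ∧ t ≤ 2 * T ∧ LC (fun z => F (I * t + z)) n ≤ 0} ≤
        ENNReal.ofReal (C * T * Real.exp (-(c * n))) := by
  have hF := hD.diff
  obtain ⟨c1, C1, a0, T1, hc1, hC1, ha0, hT1, H1⟩ := hD.good (1 / 20000000) (by norm_num)
  obtain ⟨R, η1, T2, hR, hη1, hT2, H2⟩ := hU (1 / 100) (1 / 400) (2 * A) (by norm_num) (by norm_num) (by norm_num)
    (by linarith) (1 / 20000000) (by norm_num)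
  obtain ⟨c3, C3, T3, hc3, hC3, hT3, H3⟩ := hD.top R (1 / 100 * min (1 / 400) 1 / 10) η1 hR (by
    have : (0 : ℝ) < min (1 / 400) 1 := lt_min (by norm_num) one_pos
    positivity) hη1
  refine ⟨min c1 (c3 / A), C1 + C3, max (max T1 T2) (max T3 (Real.exp 1000)), max 1000000000000 ⌈a0⌉₊,
    lt_min hc1 (by positivity), by positivity, hT1.trans ((le_max_left _ _).trans (le_max_left _ _)), ?_⟩
  intro T n hT hn hnA
  have hTT1 : T1 ≤ T := ((le_max_left _ _).trans (le_max_left _ _)).trans hT
  have hTT2 : T2 ≤ T := ((le_max_right _ _).trans (le_max_left _ _)).trans hT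
  have hTT3 : T3 ≤ T := ((le_max_left _ _).trans (le_max_right _ _)).trans hT
  have hTe : Real.exp 1000 ≤ T := ((le_max_right _ _).trans (le_max_right _ _)).trans hT
  have hT1000 : 1000 ≤ T := by
    have := Real.add_one_le_exp (1000 : ℝ)
    linarith
  have hT0 : 0 < T := by linarith
  have hnb : 1000000000000 ≤ n := (le_max_left _ _).trans hn
  have hna : a0 ≤ n := (Nat.le_ceil a0).trans (by exact_mod_cast (le_max_right _ _).trans hn)
  have hn0 : (0 : ℝ) < n := by
    have : (1000000000000 : ℝ) ≤ n := by exact_mod_cast hnb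
    linarith
  have hL : 1000 ≤ Real.log T := by
    rw [Real.le_log_iff_exp_le hT0]; exact hTe
  rcases le_or_gt (n : ℝ) (Real.log T / 200) with h | h
  · -- small scales
    refine (measure_mono (t := {t0 : ℝ | T / 2 ≤ t0 ∧ t0 ≤ 3 * T ∧
      ¬ NN n (1 / 20000000) (fun z => F (I * t0 + ra T n * z))}) ?_).trans ((H1 T n hTT1 hna h).trans ?_)
    · rintro t ⟨h1, h2, h3⟩
      refine ⟨by linarith, by linarith, fun h4 => ?_⟩
      have h5 := pos_of_nn hF (by unfold ra; positivity) hnb h4
      linarith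
    · apply ENNReal.ofReal_le_ofReal
      have h5 : Real.exp (-(c1 * n)) ≤ Real.exp (-(min c1 (c3 / A) * n)) := by
        apply Real.exp_le_exp.2
        have : min c1 (c3 / A) * n ≤ c1 * n := by
          gcongr
          exact min_le_left _ _
        linarith
      calc C1 * T * Real.exp (-(c1 * n)) ≤ C1 * T * Real.exp (-(min c1 (c3 / A) * n)) := by gcongr
        _ ≤ (C1 + C3) * T * Real.exp (-(min c1 (c3 / A) * n)) := by
            gcongr
            linarith
  · -- fixed scales
    refine (measure_mono (t := {t : ℝ | T / 2 ≤ t ∧ t ≤ 3 * T ∧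
      ¬ FarOK F R (1 / 100 * min (1 / 400) 1 / 10) η1 t}) ?_).trans ((H3 T hTT3).trans ?_)
    · rintro t ⟨h1, h2, h3⟩
      refine ⟨by linarith, by linarith, fun h4 => ?_⟩
      have ht0 : 0 < t := by linarith
      have hlog2 : Real.log 2 ≤ 1 := by
        have := Real.log_le_sub_one_of_pos (show (0 : ℝ) < 2 by norm_num)
        linarith
      have hOm1 : Real.log T / 2 ≤ Om t := by
        unfold Om
        have := Real.log_le_log hT0 h1
        linarith
      have hOm2 : Om t ≤ (Real.log T + 1) / 2 := by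
        unfold Om
        have h5 := Real.log_le_log ht0 h2
        rw [Real.log_mul (by norm_num) hT0.ne'] at h5
        linarith
      have hOm0 : 0 < Om t := by linarith
      obtain ⟨r, hr⟩ : ∃ r : ℝ, r = n / Om t := ⟨_, rfl⟩
      have hrO : r * Om t = n := by rw [hr]; field_simp
      have hr0 : 0 < r := by rw [hr]; positivity
      have hr1 : 1 / 400 ≤ r := by
        rw [hr, le_div_iff₀ hOm0]
        linarith
      have hr2 : r ≤ 2 * A := by
        rw [hr, div_le_iff₀ hOm0]
        nlinarith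
      have h5 := H2 t r (2 * r ^ 2) (by linarith) hr1 hr2 le_rfl h4
      rw [hrO] at h5
      have h6 := pos_of_nn hF hr0 hnb (nn_ng hn0.le h5)
      linarith
    · apply ENNReal.ofReal_le_ofReal
      have hTc : T ^ (1 - c3) = T * Real.exp (-(c3 * Real.log T)) := by
        rw [Real.rpow_sub hT0, Real.rpow_one, Real.rpow_def_of_pos hT0, div_eq_mul_inv, ← Real.exp_neg]
        congr 3
        ring
      rw [hTc]
      have h14 : Real.exp (-(c3 * Real.log T)) ≤ Real.exp (-(min c1 (c3 / A) * n)) := by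
        apply Real.exp_le_exp.2
        have h15 : min c1 (c3 / A) * n ≤ c3 / A * n := by
          gcongr
          exact min_le_right _ _
        have h16 : c3 / A * n ≤ c3 / A * (A * Real.log T) := by gcongr
        have h17 : c3 / A * (A * Real.log T) = c3 * Real.log T := by field_simp
        linarith
      calc C3 * (T * Real.exp (-(c3 * Real.log T))) ≤ C3 * (T * Real.exp (-(min c1 (c3 / A) * n))) := by gcongr
        _ = C3 * T * Real.exp (-(min c1 (c3 / A) * n)) := by ring
        _ ≤ (C1 + C3) * T * Real.exp (-(min c1 (c3 / A) * n)) := by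
            gcongr
            linarith

end Pool.Agent.T6.H6.LG
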