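import Pool.Agent.TH803.LU.Prof
import Pool.Agent.H24R2.DZ.Spec

/-!
# Positivity of the Taylor coefficients of `|f|²` in the normalised local situation
-/

set_option autoImplicit false

namespace Pool.Agent.T6.H6.LG

open Complex Filter Topology Set Metric
open scoped ComplexConjugate
open Pool.Agent.TH803.LU (LC EE FE0 EE_diff EE_hasDeriv EE_conj EE_norm EE_real EE_neg logDeriv_der cc_hasDeriv
  center_pos scale0)
open Pool.Agent.H24R2.DZ (NN)
open H353.E H353.F

/-- the functional equation from the symmetry -/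
theorem fe_of_symm {f : ℂ → ℂ} (h : ∀ z : ℂ, f (-((starRingEnd ℂ) z)) = (starRingEnd ℂ) (f z)) : FE0 f := by
  refine ⟨1, norm_one, fun u => ?_⟩
  rw [one_mul, h, Complex.conj_conj]

/-- growth of `f` from the logarithmic derivative -/
theorem grow {f : ℂ → ℂ} (hf : Differentiable ℂ f) {a K : ℝ} {z w : ℂ}
    (hseg : ∀ s ∈ Icc (0 : ℝ) 1, f (w + s * (z - w)) ≠ 0 ∧ ‖logDeriv f (w + s * (z - w)) - a‖ ≤ K) :
    ‖f z‖ ≤ ‖f w‖ * Real.exp (a * (z.re - w.re) + K * ‖z - w‖) := by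
  obtain ⟨g, hg⟩ : ∃ g : ℝ → ℂ, g = fun s : ℝ => f (w + s * (z - w)) * cexp (-(a * (s * (z - w)))) := ⟨_, rfl⟩
  have hge : ∀ s : ℝ, g s = f (w + s * (z - w)) * cexp (-(a * (s * (z - w)))) := fun s => by rw [hg]
  obtain ⟨g', hg'⟩ : ∃ g' : ℝ → ℂ, g' = fun s : ℝ => deriv f (w + s * (z - w)) * (z - w) *
      cexp (-(a * (s * (z - w)))) + f (w + s * (z - w)) * (cexp (-(a * (s * (z - w)))) * (-(a * (z - w)))) := ⟨_, rfl⟩
  have hd : ∀ s : ℝ, HasDerivAt g (g' s) s := by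
    intro s
    have h0 : HasDerivAt (fun s : ℝ => (s : ℂ) * (z - w)) (z - w) s := by
      simpa using (Complex.ofRealCLM.hasDerivAt (x := s)).mul_const (z - w)
    have h1 : HasDerivAt (fun s : ℝ => w + (s : ℂ) * (z - w)) (z - w) s := h0.const_add w
    have h2 : HasDerivAt (fun s : ℝ => f (w + s * (z - w))) (deriv f (w + s * (z - w)) * (z - w)) s :=
      HasDerivAt.comp_of_eq (h₂ := f) s (hf _).hasDerivAt h1 rfl
    have h3 : HasDerivAt (fun s : ℝ => cexp (-(a * (s * (z - w)))))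
        (cexp (-(a * (s * (z - w)))) * (-(a * (z - w)))) s := (h0.const_mul (a : ℂ)).neg.cexp
    rw [hg, hg']
    exact h2.mul h3
  have hb : ∀ s ∈ Ico (0 : ℝ) 1, ‖g' s‖ ≤ (K * ‖z - w‖) * ‖g s‖ + 0 := by
    intro s hs
    obtain ⟨h1, h2⟩ := hseg s ⟨hs.1, hs.2.le⟩
    have e : g' s = (z - w) * (logDeriv f (w + s * (z - w)) - a) * g s := by
      rw [hg', hge, logDeriv_apply]
      field_simp
      ring
    rw [e, norm_mul, norm_mul, add_zero]
    have := norm_nonneg (z - w)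
    calc ‖z - w‖ * ‖logDeriv f (w + s * (z - w)) - a‖ * ‖g s‖ ≤ ‖z - w‖ * K * ‖g s‖ := by gcongr
      _ = _ := by ring
  have h1 := norm_le_gronwallBound_of_norm_deriv_right_le (f := g) (f' := g') (δ := ‖g 0‖) (a := 0) (b := 1)
    (fun s _ => (hd s).continuousAt.continuousWithinAt) (fun s _ => (hd s).hasDerivWithinAt) le_rfl hb 1
    ⟨zero_le_one, le_rfl⟩
  rw [gronwallBound_ε0, sub_zero, mul_one] at h1
  have e0 : ‖g 0‖ = ‖f w‖ := by
    rw [hge]
    simp
  have e1 : ‖g 1‖ = ‖f z‖ * Real.exp (-(a * (z.re - w.re))) := by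
    rw [hge, norm_mul, Complex.norm_exp]
    have e2 : (-((a : ℂ) * (((1 : ℝ) : ℂ) * (z - w)))).re = -(a * (z.re - w.re)) := by
      rw [ofReal_one, one_mul, neg_re, Complex.re_ofReal_mul, sub_re]
    rw [e2]
    simp
  rw [e0, e1] at h1
  have h3 := mul_le_mul_of_nonneg_right h1 (Real.exp_pos (a * (z.re - w.re))).le
  have e4 : ‖f z‖ * Real.exp (-(a * (z.re - w.re))) * Real.exp (a * (z.re - w.re)) = ‖f z‖ := by
    rw [mul_assoc, ← Real.exp_add]
    simp
  rw [e4] at h3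
  refine h3.trans (le_of_eq ?_)
  rw [Real.exp_add]
  ring

/-- size of `f` to the right of the line -/
theorem nn_size {a η : ℝ} {f : ℂ → ℂ} (h : NN a η f) {z : ℂ} (hz : 1 / 1000 ≤ z.re) (hz2 : ‖z‖ ≤ 19) :
    ‖f z‖ ≤ ‖f 1‖ * Real.exp (a * (z.re - 1) + η * a * ‖z - 1‖) := by
  have h1 := grow h.diff (z := z) (w := 1) (a := a) (K := η * a) fun s hs => by
    have h2 : (1 : ℂ) + s * (z - 1) = (1 - s : ℝ) * 1 + (s : ℝ) * z := by push_cast; ring
    rw [h2]
    refine h.far _ ?_ ?_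
    · rw [add_re, Complex.re_ofReal_mul, Complex.re_ofReal_mul, one_re]
      nlinarith [hs.1, hs.2]
    · refine (norm_add_le _ _).trans ?_
      rw [norm_mul, norm_mul, Complex.norm_real, Complex.norm_real, norm_one, Real.norm_eq_abs, Real.norm_eq_abs,
        abs_of_nonneg hs.1, abs_of_nonneg (by linarith [hs.2])]
      nlinarith [hs.1, hs.2, norm_nonneg z]
  rw [one_re] at h1
  exact h1

/-- upper bound on both sides of the line -/
theorem nn_up {a η κ : ℝ} (ha : 0 ≤ a) (hη : 0 ≤ η) (hκ : 4 * η ≤ κ) {f : ℂ → ℂ} (h : NN a η f) {u : ℂ}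
    (h1 : |u.re| ≤ 2) (h2 : |u.im| ≤ 2) :
    ‖f u‖ ≤ ‖f 1‖ * Real.exp (-a) * Real.exp (a * max |u.re| (1 - 1 / 2) + κ * a) := by
  have hn : ∀ v : ℂ, |v.re| ≤ 2 → |v.im| ≤ 2 → ‖v‖ ≤ 3 := by
    intro v h3 h4
    have h5 : ‖v‖ ^ 2 ≤ 3 ^ 2 := by
      rw [Complex.sq_norm, Complex.normSq_apply]
      have h4 : v.re ^ 2 ≤ 2 ^ 2 := sq_le_sq' (abs_le.1 h3).1 (abs_le.1 h3).2
      have h5 : v.im ^ 2 ≤ 2 ^ 2 := sq_le_sq' (abs_le.1 (by assumption)).1 (abs_le.1 (by assumption)).2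
      nlinarith
    exact le_of_sq_le_sq h5 (by norm_num)
  rw [mul_assoc, ← Real.exp_add]
  have hηκ : 0 ≤ κ := by linarith
  have key : ∀ v : ℂ, |v.re| ≤ 2 → |v.im| ≤ 2 → 1 / 1000 ≤ v.re →
      ‖f v‖ ≤ ‖f 1‖ * Real.exp (-a + (a * max |v.re| (1 - 1 / 2) + κ * a)) := by
    intro v h3 h4 h5
    have h6 := hn v h3 h4
    refine (nn_size h h5 (by linarith)).trans ?_
    apply mul_le_mul_of_nonneg_left _ (norm_nonneg _)
    apply Real.exp_le_exp.2
    have h7 : ‖v - 1‖ ≤ 4 := by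
      refine (norm_sub_le _ _).trans ?_
      rw [norm_one]; linarith
    have h8 : η * a * ‖v - 1‖ ≤ η * a * 4 := by gcongr
    have h9 : v.re ≤ max |v.re| (1 - 1 / 2) := (le_abs_self _).trans (le_max_left _ _)
    have h10 : a * v.re ≤ a * max |v.re| (1 - 1 / 2) := by gcongr
    have h11 : η * a * 4 ≤ κ * a := by nlinarith
    linarith
  rcases le_or_gt (1 / 1000) u.re with h3 | h3
  · exact key u h1 h2 h3
  rcases le_or_gt u.re (-(1 / 1000)) with h4 | h4
  · have h5 := key (-conj u) (by rw [neg_re, conj_re, abs_neg]; exact h1) (by rw [neg_im, conj_im, neg_neg]; exact h2)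
      (by rw [neg_re, conj_re]; linarith)
    rw [h.symm, Complex.norm_conj, neg_re, conj_re, abs_neg] at h5
    exact h5
  · have h5 := h.near u (abs_le.2 ⟨h4.le, h3.le⟩) ((hn u h1 h2).trans (by norm_num))
    refine h5.trans ?_
    apply mul_le_mul_of_nonneg_left _ (norm_nonneg _)
    apply Real.exp_le_exp.2
    have h6 : (1 - 1 / 2 : ℝ) ≤ max |u.re| (1 - 1 / 2) := le_max_right _ _
    have h7 : a * (1 - 1 / 2 : ℝ) ≤ a * max |u.re| (1 - 1 / 2) := by gcongr
    have h8 : 0 ≤ κ * a := by positivity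
    linarith

/-- **Positivity in the normalised local situation.** -/
theorem nn_pos {η : ℝ} {n : ℕ} {f : ℂ → ℂ} (hη0 : 0 ≤ η) (hη : η ≤ 1 / 20000000) (hn : 1000000000000 ≤ n)
    (h : NN n η f) : 0 < LC f n := by
  have hn' : (1000000000000 : ℝ) ≤ n := by exact_mod_cast hn
  have hn0 : (0 : ℝ) < n := by linarith
  have hd := h.diff
  have hfe := fe_of_symm h.symm
  have hf1 : 0 < ‖f 1‖ := norm_pos_iff.2 (h.far 1 (by norm_num) (by norm_num)).1
  obtain ⟨Ψ, hΨf⟩ : ∃ Ψ : ℂ → ℂ, Ψ = fun s : ℂ => EE f ((1 : ℝ) * (s - 1 / 2)) := ⟨_, rfl⟩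
  have hΨe : ∀ s : ℂ, Ψ s = EE f (s - 1 / 2) := fun s => by rw [hΨf]; simp
  obtain ⟨P, hP⟩ : ∃ P : ℂ → ℂ, P = fun u : ℂ => logDeriv f u + conj (logDeriv f (conj u)) := ⟨_, rfl⟩
  have hPe : ∀ u : ℂ, P u = logDeriv f u + conj (logDeriv f (conj u)) := fun u => by rw [hP]
  have hcc : ∀ u : ℂ, cc 0 + u - 1 / 2 = u := fun u => by unfold cc; simp
  have hfeΨ : ∀ s : ℂ, Ψ s = conj (Ψ (1 - conj s)) := fun s => by
    rw [hΨe, hΨe, ← EE_conj]
    have e : conj (1 - conj s - 1 / 2) = -(s - 1 / 2) := by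
      rw [map_sub, map_sub, Complex.conj_conj, map_one, map_div₀, map_one, map_ofNat]
      ring
    rw [e, EE_neg hfe]
  have hnorm : ∀ u : ℂ, |u.re| ≤ 2 → |u.im| ≤ 2 → ‖u‖ ≤ 3 := by
    intro v h3 h4
    have h5 : ‖v‖ ^ 2 ≤ 3 ^ 2 := by
      rw [Complex.sq_norm, Complex.normSq_apply]
      have h5 : v.re ^ 2 ≤ 2 ^ 2 := sq_le_sq' (abs_le.1 h3).1 (abs_le.1 h3).2
      have h6 : v.im ^ 2 ≤ 2 ^ 2 := sq_le_sq' (abs_le.1 h4).1 (abs_le.1 h4).2
      nlinarith
    exact le_of_sq_le_sq h5 (by norm_num)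
  have hloc : Loc Ψ P (2 * n) (1 / 2) (1 / 2000000) ((‖f 1‖ * Real.exp (-n)) ^ 2) 0 0 := by
    refine ⟨?_, ⟨1, norm_one, fun s => ?_⟩, fun u h1 h2 h3 => ?_, fun u h1 h2 h3 => ?_,
      fun u h1 h2 h3 => ?_, fun u h1 h2 => ?_, fun x h1 h2 => ?_, by positivity, by norm_num, by norm_num,
      by norm_num, by norm_num, le_rfl, ?_, ?_⟩
    · rw [hΨf]
      exact (EE_diff hd).comp (by fun_prop)
    · rw [one_mul]
      exact hfeΨ s
    · -- derivative
      have hu : |u.re| ≤ 2 := abs_le.2 ⟨by linarith, by linarith⟩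
      have hnv := hnorm u hu h3
      have hne1 : f u ≠ 0 := (h.far u (by linarith) (by linarith)).1
      have hne2 : f (conj u) ≠ 0 := (h.far _ (by rw [Complex.conj_re]; linarith)
        (by rw [Complex.norm_conj]; linarith)).1
      have h4 : HasDerivAt (fun s : ℂ => (s - 1 / 2)) 1 (cc 0 + u) := (hasDerivAt_id (cc 0 + u)).sub_const _
      have h5 : HasDerivAt (EE f) (deriv f u * conj (f (conj u)) +
          f u * conj (deriv f (conj u))) (cc 0 + u - 1 / 2) := by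
        rw [hcc]
        exact EE_hasDeriv hd _
      have h6 := HasDerivAt.comp_of_eq (cc 0 + u) h5 h4 rfl
      have e1 : (EE f ∘ fun s : ℂ => (s - 1 / 2)) = Ψ := by
        funext s
        rw [hΨe]
        rfl
      rw [e1] at h6
      refine h6.congr_deriv ?_
      rw [hΨe, hcc, hPe, logDeriv_apply, logDeriv_apply, map_div₀]
      have hne3 : conj (f (conj u)) ≠ 0 := (map_ne_zero _).2 hne2
      unfold EE
      field_simp
    · -- size of P
      have hu : |u.re| ≤ 2 := abs_le.2 ⟨by linarith, by linarith⟩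
      have hnv := hnorm u hu h3
      have h4 := (h.far u (by linarith) (by linarith)).2
      have h5 := (h.far (conj u) (by rw [Complex.conj_re]; linarith) (by rw [Complex.norm_conj]; linarith)).2
      have e : P u - ((2 * n : ℕ) : ℂ) = (logDeriv f u - (n : ℝ)) + conj (logDeriv f (conj u) - (n : ℝ)) := by
        rw [hPe, map_sub, Complex.conj_ofReal]
        push_cast
        ring
      rw [e]
      calc ‖(logDeriv f u - (n : ℝ)) + conj (logDeriv f (conj u) - (n : ℝ))‖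
          ≤ ‖logDeriv f u - (n : ℝ)‖ + ‖conj (logDeriv f (conj u) - (n : ℝ))‖ := norm_add_le _ _
        _ ≤ η * n + η * n := by
            rw [Complex.norm_conj]
            gcongr
        _ ≤ 1 / 2000000 * ((2 * n : ℕ) : ℝ) := by push_cast; nlinarith
    · -- derivative of P
      have hu : |u.re| ≤ 2 := abs_le.2 ⟨by linarith, by linarith⟩
      have hnv := hnorm u hu h3
      have hb : ∀ w : ℂ, ‖w‖ = ‖u‖ → 1 / 2 ≤ w.re →
          ∃ d : ℂ, HasDerivAt (logDeriv f) d w ∧ ‖d‖ ≤ η * n / (1 / 5) := by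
        intro w hw hwr
        have hzn : ∀ z : ℂ, ‖z - w‖ ≤ 1 / 5 → ‖z‖ ≤ 20 := fun z hz2 => by
          calc ‖z‖ = ‖(z - w) + w‖ := by ring_nf
            _ ≤ ‖z - w‖ + ‖w‖ := norm_add_le _ _
            _ ≤ 1 / 5 + 3 := by rw [hw]; gcongr
            _ ≤ _ := by linarith
        exact logDeriv_der hd (ϑ0 := 1 / 1000) (ℓ := (n : ℝ)) (by positivity)
          (fun z hz1 hz2 => (h.far z hz1 (hzn z hz2)).1) (fun z hz1 hz2 => (h.far z hz1 (hzn z hz2)).2)
          (by linarith)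
      obtain ⟨d1, hd1, hd1'⟩ := hb u rfl (by linarith)
      obtain ⟨d2, hd2, hd2'⟩ := hb (conj u) (Complex.norm_conj _) (by rw [Complex.conj_re]; linarith)
      have h6 : HasDerivAt (fun v : ℂ => conj (logDeriv f (conj v))) (conj d2) u := cc_hasDeriv hd2
      refine ⟨d1 + conj d2, ?_, ?_⟩
      · rw [hP]
        exact hd1.add h6
      · refine (norm_add_le _ _).trans ?_
        rw [Complex.norm_conj]
        push_cast
        nlinarith
    · -- upper bound
      rw [zero_add] at h1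
      rw [hΨe, hcc, EE_norm]
      have h4 := nn_up hn0.le hη0 (κ := 1 / 2000000) (by linarith) h (u := u) h1 h2
      have h5 := nn_up hn0.le hη0 (κ := 1 / 2000000) (by linarith) h (u := conj u) (by rwa [Complex.conj_re])
        (by rwa [Complex.conj_im, abs_neg])
      rw [Complex.conj_re] at h5
      calc ‖f u‖ * ‖f (conj u)‖ ≤
            (‖f 1‖ * Real.exp (-n) * Real.exp (n * max |u.re| (1 - 1 / 2) + 1 / 2000000 * n)) *
            (‖f 1‖ * Real.exp (-n) * Real.exp (n * max |u.re| (1 - 1 / 2) + 1 / 2000000 * n)) :=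
              mul_le_mul h4 h5 (norm_nonneg _) (by positivity)
        _ = (‖f 1‖ * Real.exp (-n)) ^ 2 * (Real.exp (n * max |u.re| (1 - 1 / 2) + 1 / 2000000 * n) *
            Real.exp (n * max |u.re| (1 - 1 / 2) + 1 / 2000000 * n)) := by ring
        _ = (‖f 1‖ * Real.exp (-n)) ^ 2 * Real.exp (((2 * n : ℕ) : ℝ) * max |u.re| (1 - 1 / 2) +
            1 / 2000000 * ((2 * n : ℕ) : ℝ)) := by
            rw [← Real.exp_add]
            congr 2
            push_cast
            ring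
    · -- lower bound
      have hx : x = 0 := le_antisymm h2 h1
      rw [hx, hΨe, hcc]
      have e1 : (((0 + 1 : ℝ)) : ℂ) = 1 := by simp
      rw [e1, EE_norm, map_one]
      have e2 : (‖f 1‖ * Real.exp (-n)) ^ 2 * Real.exp (((2 * n : ℕ) : ℝ) * (0 + 1) -
          1 / 2000000 * ((2 * n : ℕ) : ℝ)) = ‖f 1‖ * ‖f 1‖ * Real.exp (-(1 / 1000000 * n)) := by
        have e3 : Real.exp (-n) ^ 2 * Real.exp (((2 * n : ℕ) : ℝ) * (0 + 1) -
          1 / 2000000 * ((2 * n : ℕ) : ℝ)) = Real.exp (-(1 / 1000000 * n)) := by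
          rw [← Real.exp_nat_mul, ← Real.exp_add]
          congr 1
          push_cast
          ring
        rw [mul_pow, mul_assoc, e3]
        ring
      rw [e2]
      have e4 : Real.exp (-(1 / 1000000 * n)) ≤ 1 := Real.exp_le_one_iff.2 (by
        have : 0 ≤ 1 / 1000000 * (n : ℝ) := by positivity
        linarith)
      calc ‖f 1‖ * ‖f 1‖ * Real.exp (-(1 / 1000000 * n)) ≤ ‖f 1‖ * ‖f 1‖ * 1 := by gcongr
        _ = _ := by ring
    · push_cast
      linarith
    · push_cast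
      norm_num
      linarith
  have hc := center_pos hloc (by simp) hfeΨ (fun u _ => by
      rw [hPe, hPe]
      simp only [map_add, Complex.conj_conj]
      ring) (fun x _ => ⟨‖f x‖ ^ 2, by positivity, by
        rw [hΨe]
        have e : (1 / 2 + (x : ℂ) - 1 / 2) = ((x : ℝ) : ℂ) := by ring
        rw [e, EE_real]⟩)
  rw [hΨf, scale0 (EE_diff hd)] at hc
  simp only [ofReal_one, one_pow, one_mul] at hc
  unfold LC
  have h2 : (0 : ℝ) < ((2 * n).factorial : ℝ) := by exact_mod_cast (2 * n).factorial_pos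
  exact div_pos hc h2

end Pool.Agent.T6.H6.LG
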