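import Pool.Agent.T6.H6.LG.Ms
import Pool.Agent.T6.H10.DS.FinD

/-!
# From the rescaled function to `Λ`
-/

set_option autoImplicit false

namespace Pool.Agent.T6.H6.LG

open Complex Filter Topology Set Metric MeasureTheory
open scoped ComplexConjugate
open Pool.Agent.TH803.LU (LC)
open Pool.Agent.Y671.GL
open Pool.Agent.Y693.GL (GY)

/-- the coefficients of `Λ` and of the rescaled function -/
theorem lc_rel {Λ : ℂ → ℂ} (hΛ : Differentiable ℂ Λ) (v : ℂ) {a b : ℝ} {F : ℂ → ℂ}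
    (hF : F = fun z => v * Λ ((a : ℂ) + z / (b : ℂ))) (n : ℕ) (t : ℝ) (hb : b ≠ 0) :
    LC (fun z => F (I * ((b * t : ℝ) : ℂ) + z)) n =
      ‖v‖ ^ 2 * ((b⁻¹) ^ (2 * n) * LC (fun u => Λ (a + t * I + u)) n) := by
  have hbc : (b : ℂ) ≠ 0 := by exact_mod_cast hb
  have hd : Differentiable ℂ (fun u : ℂ => Λ (a + t * I + u)) := hΛ.comp (by fun_prop)
  have hd2 : Differentiable ℂ (fun z : ℂ => (fun u : ℂ => Λ (a + t * I + u)) (((b⁻¹ : ℝ) : ℂ) * z)) :=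
    hd.comp (by fun_prop)
  have e : (fun z => F (I * ((b * t : ℝ) : ℂ) + z)) = fun z => v * (fun z : ℂ => (fun u : ℂ => Λ (a + t * I + u))
      (((b⁻¹ : ℝ) : ℂ) * z)) z := by
    funext z
    rw [hF]
    show v * Λ _ = v * Λ _
    congr 2
    push_cast
    field_simp
    ring
  rw [e, LC_cm hd2, LC_sc hd]

/-- **Dyadic windows for `Λ`.** -/
theorem lamL {Λ : ℂ → ℂ} {v : ℂ} {a κ : ℝ} {H Z : ℂ → ℂ} (hκ : 1 / 2 ≤ κ) (hv : v ≠ 0)
    (hG : GY κ H (fun z => v * Λ ((a : ℂ) + z)) Z) (hA : AppX (fun z => v * Λ ((a : ℂ) + z)))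
    (hL : LowX (fun z => v * Λ ((a : ℂ) + z)))
    (hst : ∀ s : ℂ, (fun z => v * Λ ((a : ℂ) + z)) s = 0 → |s.re| ≤ 1 / 2)
    (hH : HugeX (fun z => v * Λ ((a : ℂ) + z))) (hΛ : Differentiable ℂ Λ) (A : ℝ) (hA1 : 1 ≤ A) :
    ∃ c C T0 : ℝ, ∃ n0 : ℕ, 0 < c ∧ 0 < C ∧ 2 ≤ T0 ∧ ∀ (T : ℝ) (n : ℕ), T0 ≤ T → n0 ≤ n →
      (n : ℝ) ≤ A * Real.log T →
      volume {t : ℝ | T ≤ t ∧ t ≤ 2 * T ∧ LC (fun u => Λ (a + t * I + u)) n ≤ 0} ≤
        ENNReal.ofReal (C * T * Real.exp (-(c * n))) := by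
  obtain ⟨F, K, hF, hDD, hU⟩ := Pool.Agent.T6.H10.DS.dd_of κ H _ Z hκ hG hA hL hst hH
  obtain ⟨c, C, T0, n0, hc, hC, hT0, H1⟩ := dyL hDD hU A hA1
  refine ⟨c, C, T0, n0, hc, hC, hT0, ?_⟩
  intro T n hT hn hnA
  obtain ⟨b, hb⟩ : ∃ b : ℝ, b = 2 * κ := ⟨_, rfl⟩
  have hb1 : 1 ≤ b := by linarith
  have hb0 : 0 < b := by linarith
  have hT00 : 0 < T := by linarith
  have hbT : T ≤ b * T := by nlinarith
  have h1 := H1 (b * T) n (by linarith) hn (hnA.trans (by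
    have := Real.log_le_log (by linarith) hbT
    exact mul_le_mul_of_nonneg_left this (by linarith)))
  have hF' : F = fun z => v * Λ ((a : ℂ) + z / (b : ℂ)) := by
    rw [hF, hb]
  have hset : {t : ℝ | T ≤ t ∧ t ≤ 2 * T ∧ LC (fun u => Λ (a + t * I + u)) n ≤ 0} =
      (fun t => b * t) ⁻¹' {t : ℝ | b * T ≤ t ∧ t ≤ 2 * (b * T) ∧ LC (fun z => F (I * t + z)) n ≤ 0} := by
    ext t
    simp only [mem_preimage, mem_setOf_eq]
    have hvn : 0 < ‖v‖ ^ 2 := by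
      have := norm_pos_iff.2 hv
      positivity
    have hbn : 0 < (b⁻¹) ^ (2 * n) := by positivity
    have hrel := lc_rel hΛ v hF' n t hb0.ne'
    constructor
    · rintro ⟨k1, k2, k3⟩
      refine ⟨by gcongr, ?_, ?_⟩
      · have := mul_le_mul_of_nonneg_left k2 hb0.le
        linarith
      · rw [hrel]
        exact mul_nonpos_of_nonneg_of_nonpos hvn.le (mul_nonpos_of_nonneg_of_nonpos hbn.le k3)
    · rintro ⟨k1, k2, k3⟩
      refine ⟨le_of_mul_le_mul_left k1 hb0, ?_, ?_⟩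
      · refine le_of_mul_le_mul_left (a := b) ?_ hb0
        linarith
      · rw [hrel] at k3
        by_contra k4
        have := mul_pos hvn (mul_pos hbn (not_le.1 k4))
        linarith
  rw [hset, Real.volume_preimage_mul_left hb0.ne']
  refine (mul_le_mul' le_rfl h1).trans ?_
  rw [← ENNReal.ofReal_mul (abs_nonneg _)]
  apply ENNReal.ofReal_le_ofReal
  rw [abs_of_pos (by positivity)]
  apply le_of_eq
  field_simp

end Pool.Agent.T6.H6.LG
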